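import Pool.Agent.Helper85.CR.Goals

/-!
# CR-GROW: a new vertex joined to consecutive boundary vertices
-/

set_option autoImplicit false

namespace Pool.Agent.Helper49.CR

open Equiv Helper28.VF Helper28.PL
open Pool.Agent.Helper85.CR

theorem disc_mem {W : Type} {S : Set W} {A : W → W → Prop} {l : List W} (h : Disc S A l) {x y : W}
    (hxy : A x y) : x ∈ S ∧ y ∈ S := by
  obtain ⟨D, V, E, F, _, _, _, _, M, nm, b, _, _, hr, hA, _, _⟩ := h
  obtain ⟨d, h1, h2⟩ := (hA x y).1 hxy
  rw [← hr]
  exact ⟨⟨_, h1⟩, ⟨_, h2⟩⟩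

theorem grow_aux (hEAR : StmtEAR) {W : Type} {S : Set W} {w v : W} {r : List W} (ms : List W) :
    ∀ (x : W) (A : W → W → Prop), Disc S A (w :: x :: (ms ++ v :: r)) →
      (∀ y ∈ ms ++ [v], y ≠ w ∧ ¬ A w y) → (ms ++ [v]).Nodup →
      Disc S (fun x y => A x y ∨ (x = w ∧ y ∈ ms ++ [v]) ∨ (y = w ∧ x ∈ ms ++ [v])) (w :: v :: r) := by
  induction ms with
  | nil =>
    intro x A hD hy _
    have hv : v ∈ ([] : List W) ++ [v] := by simp
    have h1 := hEAR W S A w x v r hD (hy v hv).1.symm (hy v hv).2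
    convert h1 using 1
    funext a b
    unfold addE
    simp only [List.nil_append, List.mem_singleton, eq_iff_iff]
    tauto
  | cons m ms ih =>
    intro x A hD hy hnd
    have hm : m ∈ m :: ms ++ [v] := by simp
    have h1 := hEAR W S A w x m (ms ++ v :: r) hD (hy m hm).1.symm (hy m hm).2
    rw [List.cons_append, List.nodup_cons] at hnd
    have h2 := ih m (addE A w m) h1 ?_ hnd.2
    · convert h2 using 1
      funext a b
      unfold addE
      simp only [List.cons_append, List.mem_cons, eq_iff_iff]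
      tauto
    · intro y hym
      have hy' := hy y (by rw [List.cons_append]; exact List.mem_cons_of_mem _ hym)
      refine ⟨hy'.1, ?_⟩
      rintro (h | ⟨_, h⟩ | ⟨_, h⟩)
      · exact hy'.2 h
      · rw [h] at hym
        exact hnd.1 hym
      · exact hy'.1 h

/-- **GROW** -/
theorem gGROW (_hROTL : StmtROTL) (hPEND : StmtPEND) (hEAR : StmtEAR) : StmtGROW := by
  intro W S A u ms v rest w hD hw hnd
  have h1 := hPEND W S A u (ms ++ v :: rest) w hD hw
  have e1 : w :: u :: (ms ++ v :: rest) ++ [u] = w :: u :: (ms ++ v :: (rest ++ [u])) := by simp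
  rw [e1] at h1
  rw [List.nodup_cons] at hnd
  -- the boundary vertices are in `S`
  have hbS : ∀ y ∈ u :: (ms ++ v :: rest), y ∈ S := by
    obtain ⟨D, V, E, F, _, _, _, _, M, nm, b, _, _, hr, _, _, hb⟩ := hD
    intro y hy
    rw [← hb] at hy
    obtain ⟨d, _, hd⟩ := List.mem_map.1 hy
    rw [← hr]
    exact ⟨_, hd⟩
  have h2 := grow_aux hEAR ms u (addE A w u) h1 ?_ hnd.2
  · convert h2 using 1
    funext a b
    unfold addE
    simp only [List.mem_cons, eq_iff_iff]
    tauto
  · intro y hy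
    have hyS : y ∈ S := by
      refine hbS y ?_
      simp only [List.mem_append, List.mem_singleton, List.mem_cons] at hy ⊢
      tauto
    have hyw : y ≠ w := fun h => hw (h ▸ hyS)
    refine ⟨hyw, ?_⟩
    rintro (h | ⟨_, h⟩ | ⟨_, h⟩)
    · exact hw (disc_mem hD h).1
    · rw [h] at hy
      exact hnd.1 hy
    · exact hyw h

end Pool.Agent.Helper49.CR
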